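import Pool.Agent.ANO2.Stmt.Defs

/-!
# The statement of phase 3 in short definitions

`MP_5e77d9_an`.  The same notions as in `Pool/Agent/ANO3/Defs.lean`, cut into short definitions in
terms of plain functions.
-/

set_option autoImplicit false

open scoped UpperHalfPlane MatrixGroups
open Set Filter Topology

namespace Pool.Agent.ANO3.Stmt

open Pool.Agent.ANO (X)
open Pool.Agent.ANO2.Stmt (act IsHomeoLift)

/-- `d` is the pseudo-distance of the dual tree of a measured foliation of `Γ \ ℍ` (the transverse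
measure of an optimal path): it is continuous and `Γ`-invariant, the four point condition holds
(`(ℍ, d)` is a tree) and the points of the tree, i.e. the possibly singular leaves, are connected. -/
structure IsDualTree (Γ : Subgroup SL(2, ℝ)) (d : ℍ → ℍ → ℝ) : Prop where
  self : ∀ a, d a a = 0
  symm : ∀ a b, d a b = d b a
  triangle : ∀ a b c, d a c ≤ d a b + d b c
  four : ∀ a b c e, d a b + d c e ≤ max (d a c + d b e) (d a e + d b c)
  cont : Continuous fun p : ℍ × ℍ => d p.1 p.2
  inv : ∀ γ ∈ Γ, ∀ a b, d (act γ a) (act γ b) = d a b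
  conn : ∀ a, IsConnected {z | d z a = 0}

/-- `z` lies between `a` and `b` in the tree. -/
def Between (d : ℍ → ℍ → ℝ) (a z b : ℍ) : Prop := d a z + d z b = d a b

/-- `a` and `b` lie in the same arm of the tree at `v` (component of the complement of `v`). -/
def SameArm (d : ℍ → ℍ → ℝ) (v a b : ℍ) : Prop := d a b < d v a + d v b

/-- `D` is a natural coordinate `x + i y` on a part of `U`: a `C¹` chart in which the first
pseudo-distance is `|x - x'|` and the second one is `|y - y'|`. -/
structure IsNatural (U : Set ℍ) (du ds : ℍ → ℍ → ℝ) (D : OpenPartialHomeomorph ℂ ℂ) : Prop where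
  sub : ∀ z ∈ D.source, ∃ z' ∈ U, (z' : ℂ) = z
  smooth : ContDiffOn ℝ 1 D D.source ∧ ContDiffOn ℝ 1 D.symm D.target
  dist : ∀ z z' : ℍ, (z : ℂ) ∈ D.source → (z' : ℂ) ∈ D.source →
    du z z' = |(D z).re - (D z').re| ∧ ds z z' = |(D z).im - (D z').im|

/-- `U ⊆ ℍ` is (the lift of) an open subset of `Γ \ ℍ` with a pair of transverse measured foliations:
`du`, `ds` are the pseudo-distances of the dual trees, there are natural coordinates on `U`, where
`du` and `ds` determine the topology, and (components of) the complement of `U` are points of the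
trees, isolated from each other. -/
structure IsFoliated (Γ : Subgroup SL(2, ℝ)) (U : Set ℍ) (du ds : ℍ → ℍ → ℝ) : Prop where
  isOpen : IsOpen U
  inv : ∀ γ ∈ Γ, ∀ z, act γ z ∈ U ↔ z ∈ U
  tree_u : IsDualTree Γ du
  tree_s : IsDualTree Γ ds
  natural : ∀ a ∈ U, ∃ D, (a : ℂ) ∈ D.source ∧ IsNatural U du ds D
  nhds : ∀ a ∈ U, ∀ N ∈ 𝓝 a, ∃ ε > 0, ∀ z, du a z < ε → ds a z < ε → z ∈ N
  compl : ∃ ε > 0, ∀ a b, a ∉ U → b ∉ U → du a b < ε → ds a b < ε → du a b = 0 ∧ ds a b = 0

/-- `f` expands the first tree and contracts the second one, by factors between `l > 1` and `L`. -/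
def IsExpanding (f : ℍ → ℍ) (du ds : ℍ → ℍ → ℝ) : Prop :=
  ∃ l L : ℝ, 1 < l ∧ ∀ a b, (l * du a b ≤ du (f a) (f b) ∧ du (f a) (f b) ≤ L * du a b) ∧
    l * ds (f a) (f b) ≤ ds a b ∧ ds a b ≤ L * ds (f a) (f b)

/-- `z` is (the lift of) a periodic point of the map of `Γ \ ℍ`: a fixed point of a lift `γ f^m` of
a power, `m > 0`. -/
def IsPeriodicPoint (Γ : Subgroup SL(2, ℝ)) (f : ℍ → ℍ) (z : ℍ) : Prop :=
  ∃ m : ℕ, 0 < m ∧ ∃ γ ∈ Γ, act γ (f^[m] z) = z

/-- The fixed point `z` of `h` is nondegenerate: `h` is of class `C¹` near `z` and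
`det (1 - Dh(z)) ≠ 0`. -/
def IsNondegenerate (h : ℍ → ℍ) (z : ℍ) : Prop :=
  ContDiffAt ℝ 1 (fun x : ℂ => (h (UpperHalfPlane.ofComplex x) : ℂ)) z ∧
    (fderiv ℝ (fun x : ℂ => x - (h (UpperHalfPlane.ofComplex x) : ℂ)) z).det ≠ 0

/-- `v` is a corner of a quadrant of `U`: there are periodic points in `U`, arbitrarily close to `v`
in the trees, which lie between `v` and a fixed point `b` in both trees. -/
def IsCorner (Γ : Subgroup SL(2, ℝ)) (f : ℍ → ℍ) (U : Set ℍ) (du ds : ℍ → ℍ → ℝ) (v : ℍ) : Prop :=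
  ∃ b, ∀ ε > 0, ∃ z ∈ U, IsPeriodicPoint Γ f z ∧ du v z < ε ∧ ds v z < ε ∧ Between du v z b ∧
    Between ds v z b

/-- `v` is a singularity: there are no two arms of the first tree at `v` and two arms of the second
tree at `v` each of which meets each.  (At a regular point the four quadrants are of this kind; at a
prong singularity with `n ≥ 3` prongs, the arms form a cycle of length `2 n`, at a boundary component
of the foliated part they form a line.) -/
def IsSingular (du ds : ℍ → ℍ → ℝ) (v : ℍ) : Prop :=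
  ∀ a b c e, SameArm du v a b → SameArm du v c e → SameArm ds v a c → SameArm ds v b e →
    SameArm du v a c ∨ SameArm ds v a b

/-- The map `f` of `Γ \ ℍ` is in Thurston normal form (with Morse-Smale dynamics on the part which is
not pseudo-Anosov): `U` is the lift of the pseudo-Anosov part without the singularities, with its
two invariant foliations.  Periodic points are dense in `U`, there are only finitely many periodic
orbits outside of `U`, all periodic points are nondegenerate, and if `U` is not empty then there is a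
singularity (a prong singularity or a boundary component of the pseudo-Anosov part). -/
structure IsNormalForm (Γ : Subgroup SL(2, ℝ)) (f : ℍ → ℍ) (U : Set ℍ) (du ds : ℍ → ℍ → ℝ) :
    Prop where
  foliated : IsFoliated Γ U du ds
  inv : ∀ z, f z ∈ U ↔ z ∈ U
  expanding : IsExpanding f du ds
  dense : ∀ a ∈ U, ∀ N ∈ 𝓝 a, ∃ z ∈ N, IsPeriodicPoint Γ f z
  finite : ∃ P : Set ℍ, P.Finite ∧ ∀ z ∉ U, IsPeriodicPoint Γ f z → ∃ γ ∈ Γ, act γ z ∈ P
  nondeg : ∀ m : ℕ, 0 < m → ∀ γ ∈ Γ, ∀ z, act γ (f^[m] z) = z →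
    IsNondegenerate (fun w => act γ (f^[m] w)) z
  vertex : U.Nonempty → ∃ v, v ∉ U ∧ IsCorner Γ f U du ds v ∧ IsSingular du ds v

/-- The maps of `Γ \ ℍ` induced by `f` and `g` are isotopic, by an isotopy which lifts to one of `f`
and `g`: they induce the same automorphism of `Γ`. -/
def IsIsotopic (Γ : Subgroup SL(2, ℝ)) (f g : ℍ → ℍ) : Prop :=
  ∀ γ ∈ Γ, ∃ γ' ∈ Γ, (∀ z, f (act γ z) = act γ' (f z)) ∧ ∀ z, g (act γ z) = act γ' (g z)

/-- `f` is (a lift of) a homeomorphism of the closed surface `Γ \ ℍ` with a power `f^m`, `m > 0`,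
which is isotopic to a map `g` in normal form.  (Thurston: every homeomorphism.) -/
def HasNormalForm (Γ : Subgroup SL(2, ℝ)) (f : ℍ → ℍ) : Prop :=
  IsHomeoLift Γ f ∧ ∃ m : ℕ, 0 < m ∧ ∃ (g : ℍ → ℍ) (U : Set ℍ) (du ds : ℍ → ℍ → ℝ),
    IsHomeoLift Γ g ∧ IsIsotopic Γ f^[m] g ∧ IsNormalForm Γ g U du ds

/-- The product map `(z₁, …, z_r) ↦ (f₁ z₁, …, f_r z_r)`. -/
def product {r : ℕ} (f : Fin r → ℍ → ℍ) (p : X r 0) : X r 0 := (fun i => f i (p.1 i), p.2)

end Pool.Agent.ANO3.Stmt
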