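import Pool.Agent.ANO3.Stmt.Defs
import Pool.Agent.ANO3.Defs
import Pool.Agent.ANO2.Stmt.Main

/-!
# ANO phase 3: the theorem in the final form, from `MainStatement`
-/

set_option autoImplicit false

open scoped UpperHalfPlane MatrixGroups
open Set Filter Topology

namespace Pool.Agent.ANO3.Stmt

open Pool.Agent.ANO (X)
open Pool.Agent.ANO2 (SurfaceMap surf)
open Pool.Agent.ANO2.Stmt (act IsSurfaceGroup IsHomeoLift IsDeck Homotopic IsAnosovLift)

variable {Γ : Subgroup SL(2, ℝ)} {f g : ℍ → ℍ}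

theorem act_mul (γ δ : SL(2, ℝ)) (z : ℍ) : act (γ * δ) z = act γ (act δ z) := mul_smul γ δ z

theorem IsHomeoLift.iter (hg : IsHomeoLift Γ g) (c : ℕ) : IsHomeoLift Γ g^[c] := by
  induction c with
  | zero => exact ⟨IsHomeomorph.id, fun γ hγ => ⟨γ, hγ, fun z => rfl⟩,
      fun γ hγ => ⟨γ, hγ, fun z => rfl⟩⟩
  | succ c ih =>
    refine ⟨?_, fun γ hγ => ?_, fun γ hγ => ?_⟩
    · rw [Function.iterate_succ]
      exact ih.homeo.comp hg.homeo
    · obtain ⟨γ', hγ', h1⟩ := hg.normalizes γ hγ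
      obtain ⟨γ'', hγ'', h2⟩ := ih.normalizes γ' hγ'
      refine ⟨γ'', hγ'', fun z => ?_⟩
      rw [Function.iterate_succ_apply, Function.iterate_succ_apply, h1, h2]
    · obtain ⟨γ', hγ', h1⟩ := ih.normalizes' γ hγ
      obtain ⟨γ'', hγ'', h2⟩ := hg.normalizes' γ' hγ'
      refine ⟨γ'', hγ'', fun z => ?_⟩
      rw [Function.iterate_succ_apply, Function.iterate_succ_apply, h2, h1]

theorem IsIsotopic.iter (h : IsIsotopic Γ f g) (c : ℕ) : IsIsotopic Γ f^[c] g^[c] := by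
  induction c with
  | zero => exact fun γ hγ => ⟨γ, hγ, fun z => rfl, fun z => rfl⟩
  | succ c ih =>
    intro γ hγ
    obtain ⟨γ', hγ', h1, h1'⟩ := h γ hγ
    obtain ⟨γ'', hγ'', h2, h2'⟩ := ih γ' hγ'
    refine ⟨γ'', hγ'', fun z => ?_, fun z => ?_⟩
    · rw [Function.iterate_succ_apply, Function.iterate_succ_apply, h1, h2]
    · rw [Function.iterate_succ_apply, Function.iterate_succ_apply, h1', h2']

/-- A periodic point is periodic for the powers. -/
theorem IsPeriodicPoint.iter (hg : IsHomeoLift Γ g) {z : ℍ} (h : IsPeriodicPoint Γ g z) (c : ℕ)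
    (hc : 0 < c) : IsPeriodicPoint Γ g^[c] z := by
  obtain ⟨m, hm, γ, hγ, hz⟩ := h
  have key : ∀ j : ℕ, ∃ δ ∈ Γ, act δ (g^[m * j] z) = z := by
    intro j
    induction j with
    | zero => exact ⟨1, one_mem _, one_smul _ z⟩
    | succ j ih =>
      obtain ⟨δ, hδ, h1⟩ := ih
      obtain ⟨δ', hδ', h2⟩ := (IsHomeoLift.iter hg m).normalizes δ hδ
      refine ⟨γ * δ', mul_mem hγ hδ', ?_⟩
      rw [act_mul, Nat.mul_succ, add_comm, Function.iterate_add_apply, ← h2, h1, hz]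
  obtain ⟨δ, hδ, h1⟩ := key c
  refine ⟨m, hm, δ, hδ, ?_⟩
  rw [← Function.iterate_mul, mul_comm c m]
  exact h1

theorem IsPeriodicPoint.of_iter {z : ℍ} {c : ℕ} (hc : 0 < c)
    (h : IsPeriodicPoint Γ g^[c] z) : IsPeriodicPoint Γ g z := by
  obtain ⟨m, hm, γ, hγ, hz⟩ := h
  refine ⟨c * m, Nat.mul_pos hc hm, γ, hγ, ?_⟩
  rw [Function.iterate_mul]
  exact hz

theorem IsExpanding.iter {du ds : ℍ → ℍ → ℝ} (hu : IsDualTree Γ du) (hs : IsDualTree Γ ds)
    (h : IsExpanding g du ds) {c : ℕ} (hc : 0 < c) : IsExpanding g^[c] du ds := by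
  obtain ⟨l, L, hl, h1⟩ := h
  have hl0 : 0 ≤ l := (one_pos.trans hl).le
  have nn : ∀ (d : ℍ → ℍ → ℝ), IsDualTree Γ d → ∀ a b, 0 ≤ d a b := fun d hd a b => by
    have h2 := hd.triangle a b a
    rw [hd.self, hd.symm b a] at h2
    linarith
  have hu0 := nn du hu
  have hs0 := nn ds hs
  refine ⟨l ^ c, (max L 1) ^ c, one_lt_pow₀ hl hc.ne', ?_⟩
  have hM : 0 ≤ max L 1 := le_max_of_le_right zero_le_one
  clear hc
  induction c with
  | zero => intro a b; simp
  | succ c ih =>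
    intro a b
    obtain ⟨⟨i1, i2⟩, i3, i4⟩ := ih (g a) (g b)
    obtain ⟨⟨j1, j2⟩, j3, j4⟩ := h1 a b
    rw [Function.iterate_succ_apply, Function.iterate_succ_apply]
    refine ⟨⟨?_, ?_⟩, ?_, ?_⟩
    · rw [pow_succ, mul_assoc]
      exact (mul_le_mul_of_nonneg_left j1 (pow_nonneg hl0 c)).trans i1
    · rw [pow_succ, mul_assoc]
      refine i2.trans (mul_le_mul_of_nonneg_left (j2.trans ?_) (pow_nonneg hM c))
      exact mul_le_mul_of_nonneg_right (le_max_left _ _) (hu0 a b)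
    · rw [pow_succ', mul_assoc]
      exact (mul_le_mul_of_nonneg_left i3 hl0).trans j3
    · rw [pow_succ', mul_assoc]
      refine j4.trans ((mul_le_mul_of_nonneg_right (le_max_left L 1) (hs0 _ _)).trans ?_)
      exact mul_le_mul_of_nonneg_left i4 hM

theorem IsNormalForm.iter (hg : IsHomeoLift Γ g) {U : Set ℍ} {du ds : ℍ → ℍ → ℝ}
    (h : IsNormalForm Γ g U du ds) {c : ℕ} (hc : 0 < c) : IsNormalForm Γ g^[c] U du ds := by
  refine ⟨h.foliated, ?_, h.expanding.iter h.foliated.tree_u h.foliated.tree_s hc, ?_, ?_, ?_, ?_⟩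
  · clear hc
    induction c with
    | zero => exact fun z => Iff.rfl
    | succ c ih => exact fun z => by rw [Function.iterate_succ_apply, ih, h.inv]
  · intro a ha N hN
    obtain ⟨z, hz, hp⟩ := h.dense a ha N hN
    exact ⟨z, hz, hp.iter hg c hc⟩
  · obtain ⟨P, hP, h1⟩ := h.finite
    exact ⟨P, hP, fun z hz hp => h1 z hz (hp.of_iter hc)⟩
  · intro m hm γ hγ z hz
    rw [← Function.iterate_mul] at hz ⊢
    exact h.nondeg (c * m) (Nat.mul_pos hc hm) γ hγ z hz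
  · intro hU
    obtain ⟨v, hv, ⟨b, hb⟩, hs⟩ := h.vertex hU
    refine ⟨v, hv, ⟨b, fun ε hε => ?_⟩, hs⟩
    obtain ⟨z, hz, hp, h2⟩ := hb ε hε
    exact ⟨z, hz, hp.iter hg c hc, h2⟩

theorem IsDualTree.toDual {S : SurfaceMap} {d : ℍ → ℍ → ℝ} (h : IsDualTree S.Γ d) :
    IsDual S.toClosedSurface d :=
  ⟨h.self, h.symm, h.triangle, h.cont, h.inv, h.four, h.conn⟩

theorem IsPeriodicPoint.toPer {S : SurfaceMap} {z : ℍ} :
    IsPeriodicPoint S.Γ S.f z ↔ IsPeriodic S z := by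
  constructor
  · rintro ⟨m, hm, γ, hγ, h⟩
    exact ⟨m, γ, hm, hγ, h⟩
  · rintro ⟨m, γ, hm, hγ, h⟩
    exact ⟨m, hm, γ, hγ, h⟩

theorem nonempty_normalForm {S : SurfaceMap} {U : Set ℍ} {du ds : ℍ → ℍ → ℝ}
    (h : IsNormalForm S.Γ S.f U du ds) : Nonempty (NormalForm S) := by
  obtain ⟨l, L, hl, h1⟩ := h.expanding
  exact ⟨{
    U := U
    l := l
    L := L
    du := du
    ds := ds
    isOpen := h.foliated.isOpen
    inv := h.foliated.inv
    inv_f := h.inv
    one_lt := hl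
    dual_u := h.foliated.tree_u.toDual
    dual_s := h.foliated.tree_s.toDual
    scale_u := fun a b => (h1 a b).1
    scale_s := fun a b => (h1 a b).2
    chart := fun a ha => by
      obtain ⟨D, hD, h2⟩ := h.foliated.natural a ha
      exact ⟨D, hD, h2.sub, h2.smooth.1, h2.smooth.2, h2.dist⟩
    emb := h.foliated.nhds
    sep := h.foliated.compl
    dense := fun a ha N hN => by
      obtain ⟨z, hz, hp⟩ := h.dense a ha N hN
      exact ⟨z, hz, IsPeriodicPoint.toPer.1 hp⟩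
    finite := by
      obtain ⟨P, hP, h2⟩ := h.finite
      exact ⟨P, hP, fun z hz hp => h2 z hz (IsPeriodicPoint.toPer.2 hp)⟩
    nondeg := fun z m γ hm hγ hz => h.nondeg m hm γ hγ z hz
    vertex := fun hU => by
      obtain ⟨v, hv, ⟨b, hb⟩, hs⟩ := h.vertex hU
      refine ⟨v, hv, ⟨b, fun ε hε => ?_⟩, hs⟩
      obtain ⟨z, hz, hp, h2, h3, h4, h5⟩ := hb ε hε
      exact ⟨z, hz, IsPeriodicPoint.toPer.1 hp, h2, h3, h4, h5⟩ }⟩

theorem exists_surface (hΓ : IsSurfaceGroup Γ) (hf : HasNormalForm Γ f) :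
    ∃ m : ℕ, 0 < m ∧ ∀ c : ℕ, 0 < c → ∃ S : SurfaceMap, S.Γ = Γ ∧ Nonempty (NormalForm S) ∧
      ∀ γ ∈ Γ, ∀ γ', (∀ z, f^[m * c] (act γ z) = act γ' (f^[m * c] z)) →
        ∀ z, S.f (act γ z) = act γ' (S.f z) := by
  obtain ⟨hfl, m, hm, g, U, du, ds, hg, hfg, hN⟩ := hf
  refine ⟨m, hm, fun c hc => ?_⟩
  have hgc := IsHomeoLift.iter hg c
  let S : SurfaceMap :=
    { Γ := Γ
      free := hΓ.free
      proper := hΓ.proper
      cocompact := hΓ.cocompact
      f := hgc.homeo.homeomorph g^[c]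
      normalizes := hgc.normalizes
      normalizes' := hgc.normalizes' }
  refine ⟨S, rfl, nonempty_normalForm (S := S) (hN.iter hg hc), fun γ hγ γ' h z => ?_⟩
  obtain ⟨γ₁, hγ₁, h1, h2⟩ := hfg.iter c γ hγ
  rw [← Function.iterate_mul] at h1
  have h3 : ∀ y, act γ₁ y = act γ' y := fun y => by
    obtain ⟨x, rfl⟩ := (hfl.homeo.surjective.iterate (m * c)) y
    rw [← h1, h]
  have h4 : ∀ y, S.f y = g^[c] y := fun _ => rfl
  rw [h4, h4, h2, h3]

variable {r : ℕ}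

theorem product_iter (f : Fin r → ℍ → ℍ) (N : ℕ) (p : X r 0) (i : Fin r) :
    ((product f)^[N] p).1 i = (f i)^[N] (p.1 i) := by
  induction N generalizing p with
  | zero => rfl
  | succ n ih => rw [Function.iterate_succ_apply, ih, Function.iterate_succ_apply]; rfl

theorem main (hmain : MainStatement) (r : ℕ) (hr : 0 < r) (Γ : Fin r → Subgroup SL(2, ℝ))
    (hΓ : ∀ i, IsSurfaceGroup (Γ i)) (f : Fin r → ℍ → ℍ)
    (hf : ∀ i, HasNormalForm (Γ i) (f i)) (F : X r 0 → X r 0) (hF : IsAnosovLift Γ F) (n : ℕ)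
    (hn : 0 < n) : ¬ Homotopic Γ (product f) F^[n] := by
  classical
  intro hhom
  choose m hm hS using fun i => exists_surface (hΓ i) (hf i)
  obtain ⟨N, hN⟩ : ∃ N, N = ∏ i, m i := ⟨_, rfl⟩
  have hNpos : 0 < N := by
    rw [hN]
    exact Finset.prod_pos fun i _ => hm i
  have hsurf : ∀ i, ∃ S : SurfaceMap, S.Γ = Γ i ∧ Nonempty (NormalForm S) ∧
      ∀ γ ∈ Γ i, ∀ γ', (∀ z, (f i)^[N] (act γ z) = act γ' ((f i)^[N] z)) →
        ∀ z, S.f (act γ z) = act γ' (S.f z) := by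
    intro i
    have h1 : N = m i * ∏ j ∈ Finset.univ.erase i, m j := by
      rw [hN, Finset.mul_prod_erase Finset.univ m (Finset.mem_univ i)]
    rw [h1]
    exact hS i _ (Finset.prod_pos fun j _ => hm j)
  choose S hSΓ hSt hSc using hsurf
  obtain rfl : Γ = fun i => (S i).Γ := funext fun i => (hSΓ i).symm
  obtain ⟨F', hF'c, hF'⟩ := hF.toHomeo
  have hhN : Homotopic (fun i => (S i).Γ) (product f)^[N] (F^[n])^[N] := hhom.iterate N
  refine hmain r hr S hSt F' hF' (n * N) (Nat.mul_pos hn hNpos) ?_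
  have h4 : ⇑(F' ^ (n * N)) = (F^[n])^[N] := by
    rw [ANO2.Stmt.pow_apply, hF'c, Function.iterate_mul]
  intro g hg
  obtain ⟨g', hg', h1, h2⟩ := hhN g hg
  refine ⟨g', hg', funext fun p => Prod.ext (funext fun i => ?_) (Subsingleton.elim _ _), ?_⟩
  · obtain ⟨γ, v, hγ, hgg⟩ := hg
    obtain ⟨γ', v', hγ', hgg'⟩ := hg'
    rw [Function.comp_apply, Function.comp_apply, hgg, hgg']
    refine hSc i (γ i) (hγ i) (γ' i) (fun z => ?_) (p.1 i)
    have h3 := congrArg (fun q : X r 0 => q.1 i) (congrFun h1 (fun _ => z, fun j => j.elim0))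
    simp only [Function.comp_apply] at h3
    rw [product_iter, hgg, hgg'] at h3
    refine h3.trans ?_
    show act (γ' i) (((product f)^[N] _).1 i) = _
    rw [product_iter]
  · rw [h4]
    exact h2

end Pool.Agent.ANO3.Stmt
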